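import Mathlib

/-!
# MP_418077_nt: solutions of `k k* = P P*` for the lacunary polynomial `P = X ^ n - F`

Let `F` be a fixed integer polynomial and `p` a prime which divides `F 1` exactly once. For all large
`n` every integer polynomial `k` with `k * k.mirror = P * P.mirror`, `P = X ^ n - F`, is `P`, `-P`,
`P.mirror` or `-P.mirror`. Proof: simultaneous Dirichlet approximation of the exponents of `k`
gives a polynomial identity in two variables `x`, `Y = x ^ n`, in which `Y ^ q - F (x ^ q)` is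
irreducible by Eisenstein at the ideal `(p, x - 1)`.
-/

set_option autoImplicit false

namespace Pool.Agent.Helper10.Sep

open Polynomial Finset

/-! ### Polynomials in two variables -/

/-- All coefficients have degree at most `m`. -/
def Bd (m : ℕ) (A : ℤ[X][X]) : Prop := ∀ j, (A.coeff j).natDegree ≤ m

lemma Bd.mono {m m' : ℕ} {A : ℤ[X][X]} (h : Bd m A) (hm : m ≤ m') : Bd m' A :=
  fun j => (h j).trans hm

lemma Bd.add {m : ℕ} {A B : ℤ[X][X]} (hA : Bd m A) (hB : Bd m B) : Bd m (A + B) := fun j => by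
  rw [coeff_add]
  exact (natDegree_add_le _ _).trans (max_le (hA j) (hB j))

lemma Bd.sub {m : ℕ} {A B : ℤ[X][X]} (hA : Bd m A) (hB : Bd m B) : Bd m (A - B) := fun j => by
  rw [coeff_sub]
  exact (natDegree_sub_le _ _).trans (max_le (hA j) (hB j))

lemma Bd.mul {m m' : ℕ} {A B : ℤ[X][X]} (hA : Bd m A) (hB : Bd m' B) : Bd (m + m') (A * B) :=
  fun j => by
    rw [coeff_mul]
    refine natDegree_sum_le_of_forall_le _ _ fun x _ => ?_
    exact natDegree_mul_le.trans (Nat.add_le_add (hA _) (hB _))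

lemma Bd.sum {m : ℕ} {ι : Type*} (s : Finset ι) (f : ι → ℤ[X][X]) (h : ∀ i ∈ s, Bd m (f i)) :
    Bd m (∑ i ∈ s, f i) := fun j => by
  rw [finset_sum_coeff]
  exact natDegree_sum_le_of_forall_le _ _ fun i hi => h i hi j

lemma bd_C {m : ℕ} {a : ℤ[X]} (h : a.natDegree ≤ m) : Bd m (C a) := fun j => by
  rw [coeff_C]
  split_ifs
  · exact h
  · simp

lemma bd_X_pow (q : ℕ) : Bd 0 (X ^ q : ℤ[X][X]) := fun j => by
  rw [coeff_X_pow]
  split_ifs <;> simp

lemma bd_C_mul_X_pow {m : ℕ} {a : ℤ[X]} (h : a.natDegree ≤ m) (q : ℕ) :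
    Bd m (C a * X ^ q) := by
  have := (bd_C h).mul (bd_X_pow q)
  simpa using this

/-- The substitution `Y = x ^ n` is injective on polynomials with coefficients of degree `< n`. -/
lemma eval_inj {n m : ℕ} (hm : m < n) {D : ℤ[X][X]} (hD : Bd m D)
    (h : D.eval (X ^ n : ℤ[X]) = 0) : D = 0 := by
  ext j a
  rw [coeff_zero, coeff_zero]
  by_cases ha : n ≤ a
  · exact coeff_eq_zero_of_natDegree_lt (((hD j).trans_lt hm).trans_le ha)
  push Not at ha
  by_cases hj : D.natDegree < j
  · rw [coeff_eq_zero_of_natDegree_lt hj, coeff_zero]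
  push Not at hj
  have h1 := congrArg (fun p : ℤ[X] => p.coeff (a + n * j)) h
  simp only [coeff_zero] at h1
  rw [eval_eq_sum_range, finset_sum_coeff] at h1
  rw [← h1, Finset.sum_eq_single j]
  · rw [← pow_mul, coeff_mul_X_pow', if_pos (Nat.le_add_left _ _), Nat.add_sub_cancel]
  · intro i _ hij
    rw [← pow_mul, coeff_mul_X_pow']
    split_ifs with hle
    · apply coeff_eq_zero_of_natDegree_lt
      refine ((hD i).trans_lt hm).trans_le ?_
      rcases lt_or_gt_of_ne hij with hlt | hgt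
      · have h2 : n * (i + 1) ≤ n * j := Nat.mul_le_mul_left n hlt
        rw [Nat.mul_add, Nat.mul_one] at h2
        omega
      · exfalso
        have h2 : n * (j + 1) ≤ n * i := Nat.mul_le_mul_left n hgt
        rw [Nat.mul_add, Nat.mul_one] at h2
        omega
    · rfl
  · intro hj'
    exact absurd (Finset.mem_range.2 (Nat.lt_succ_of_le hj)) hj'

/-! ### Simultaneous approximation -/

lemma dirichlet (E : Finset ℕ) (N n : ℕ) (hN : 0 < N) (hn : 0 < n) :
    ∃ q : ℕ, 1 ≤ q ∧ q ≤ N ^ E.card ∧ ∀ e ∈ E, ∃ b : ℤ, (N : ℤ) * |(q : ℤ) * e - b * n| < n := by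
  classical
  let f : ℕ → (E → Fin N) := fun q e =>
    ⟨N * (q * e.1 % n) / n, by
      rw [Nat.div_lt_iff_lt_mul hn]
      exact Nat.mul_lt_mul_of_pos_left (Nat.mod_lt _ hn) hN⟩
  have hcard : (Finset.univ : Finset (E → Fin N)).card < (range (N ^ E.card + 1)).card := by
    rw [Finset.card_univ, Fintype.card_fun, Fintype.card_fin, Fintype.card_coe, card_range]
    omega
  obtain ⟨q1, h1, q2, h2, hne, heq⟩ :=
    Finset.exists_ne_map_eq_of_card_lt_of_maps_to hcard (f := f) fun _ _ => Finset.mem_univ _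
  rw [mem_range] at h1 h2
  wlog hlt : q1 < q2 generalizing q1 q2
  · exact this q2 h2 q1 h1 hne.symm heq.symm (by omega)
  refine ⟨q2 - q1, by omega, by omega, fun e he => ?_⟩
  refine ⟨(q2 * e / n : ℕ) - (q1 * e / n : ℕ), ?_⟩
  have h3 : N * (q1 * e % n) / n = N * (q2 * e % n) / n := by
    have := congrFun heq ⟨e, he⟩
    exact congrArg Fin.val this
  have h4 : ((q2 - q1 : ℕ) : ℤ) * e - ((q2 * e / n : ℕ) - (q1 * e / n : ℕ)) * n =
      ((q2 * e % n : ℕ) : ℤ) - ((q1 * e % n : ℕ) : ℤ) := by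
    have e1 : ((q1 * e : ℕ) : ℤ) = n * (q1 * e / n : ℕ) + (q1 * e % n : ℕ) := by
      exact_mod_cast (Nat.div_add_mod (q1 * e) n).symm
    have e2 : ((q2 * e : ℕ) : ℤ) = n * (q2 * e / n : ℕ) + (q2 * e % n : ℕ) := by
      exact_mod_cast (Nat.div_add_mod (q2 * e) n).symm
    rw [Nat.cast_sub hlt.le]
    push_cast at e1 e2 ⊢
    linear_combination e2 - e1
  rw [h4, ← abs_of_nonneg (Int.natCast_nonneg N), ← abs_mul]
  have e1 := Nat.div_add_mod (N * (q1 * e % n)) n
  have e2 := Nat.div_add_mod (N * (q2 * e % n)) n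
  have m1 := Nat.mod_lt (N * (q1 * e % n)) hn
  have m2 := Nat.mod_lt (N * (q2 * e % n)) hn
  rw [h3] at e1
  have e1' : (N : ℤ) * ((q1 * e % n : ℕ) : ℤ) =
      n * ((N * (q2 * e % n) / n : ℕ) : ℤ) + ((N * (q1 * e % n) % n : ℕ) : ℤ) := by
    exact_mod_cast e1.symm
  have e2' : (N : ℤ) * ((q2 * e % n : ℕ) : ℤ) =
      n * ((N * (q2 * e % n) / n : ℕ) : ℤ) + ((N * (q2 * e % n) % n : ℕ) : ℤ) := by
    exact_mod_cast e2.symm
  rw [mul_sub, e1', e2', abs_lt]
  constructor <;> omega

/-! ### Irreducibility of `Y ^ q - F (x ^ q)` -/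

lemma prime_aux (F : ℤ[X]) (p : ℕ) (hp : p.Prime) (h1 : (p : ℤ) ∣ F.eval 1)
    (h2 : ¬ ((p : ℤ) ^ 2 ∣ F.eval 1)) (q : ℕ) (hq : 1 ≤ q) :
    Prime (X ^ q - C (expand ℤ q F) : ℤ[X][X]) := by
  have hev : (expand ℤ q F).eval 1 = F.eval 1 := by rw [expand_eval, one_pow]
  have hpp : Prime (p : ℤ) := Nat.prime_iff_prime_int.1 hp
  let P : Ideal ℤ[X] := Ideal.comap (evalRingHom (1 : ℤ)) (Ideal.span {(p : ℤ)})
  have hP : P.IsPrime := by
    have : (Ideal.span {(p : ℤ)}).IsPrime := (Ideal.span_singleton_prime hpp.ne_zero).2 hpp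
    exact Ideal.comap_isPrime _ _
  have hmem : ∀ g : ℤ[X], g ∈ P ↔ (p : ℤ) ∣ g.eval 1 := by
    intro g
    rw [Ideal.mem_comap, Ideal.mem_span_singleton]
    rfl
  have hmem2 : ∀ g : ℤ[X], g ∈ P ^ 2 → (p : ℤ) ^ 2 ∣ g.eval 1 := by
    intro g hg
    have h3 := Ideal.mem_map_of_mem (evalRingHom (1 : ℤ)) hg
    rw [Ideal.map_pow] at h3
    have h4 : Ideal.map (evalRingHom (1 : ℤ)) P ≤ Ideal.span {(p : ℤ)} := Ideal.map_comap_le
    have h5 := Ideal.pow_right_mono h4 2 h3
    rw [Ideal.span_singleton_pow, Ideal.mem_span_singleton] at h5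
    exact h5
  have hmonic : (X ^ q - C (expand ℤ q F) : ℤ[X][X]).Monic := monic_X_pow_sub_C _ (by omega)
  have hdeg : (X ^ q - C (expand ℤ q F) : ℤ[X][X]).degree = q := degree_X_pow_sub_C (by omega) _
  have hirr : Irreducible (X ^ q - C (expand ℤ q F) : ℤ[X][X]) := by
    refine irreducible_of_eisenstein_criterion hP ?_ ?_ ?_ ?_ hmonic.isPrimitive
    · rw [hmonic.leadingCoeff, hmem, eval_one]
      intro h
      exact hpp.not_isUnit (isUnit_of_dvd_one h)
    · intro m hm
      rw [hdeg, Nat.cast_lt] at hm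
      rw [coeff_sub, coeff_X_pow, if_neg hm.ne, coeff_C, hmem]
      split_ifs
      · rw [zero_sub, eval_neg, hev]
        exact (dvd_neg).2 h1
      · simp
    · rw [hdeg]
      exact_mod_cast hq
    · intro h
      have h3 := hmem2 _ h
      rw [coeff_sub, coeff_X_pow, if_neg (by omega), coeff_C_zero, zero_sub, eval_neg, hev] at h3
      exact h2 ((dvd_neg).1 h3)
  exact UniqueFactorizationMonoid.irreducible_iff_prime.1 hirr

/-! ### The main theorem of this file -/

/-- A polynomial of degree `n` is recovered from a multiple of `Y ^ q - F (x ^ q)`. -/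
lemma of_dvd {F w : ℤ[X]} {n q s : ℕ} (hn : F.natDegree < n) (hq : 1 ≤ q)
    (hF0 : F.coeff 0 ≠ 0) (hw : w.natDegree = n) (hw0 : w ≠ 0) {L : ℤ[X][X]}
    (hL : L.natDegree ≤ q) (hev : L.eval (X ^ n : ℤ[X]) = X ^ s * expand ℤ q w)
    (hdvd : (X ^ q - C (expand ℤ q F) : ℤ[X][X]) ∣ L) : ∃ c : ℤ, w = (X ^ n - F) * C c := by
  have hq0 : 0 < q := hq
  obtain ⟨T, hT⟩ := hdvd
  have hmonic : (X ^ q - C (expand ℤ q F) : ℤ[X][X]).Monic := monic_X_pow_sub_C _ (by omega)
  have hnd : (X ^ q - C (expand ℤ q F) : ℤ[X][X]).natDegree = q := natDegree_X_pow_sub_C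
  have hT0 : T ≠ 0 := by
    rintro rfl
    rw [mul_zero] at hT
    rw [hT, eval_zero] at hev
    have h1 : (X ^ s * expand ℤ q w : ℤ[X]) ≠ 0 :=
      mul_ne_zero (pow_ne_zero _ X_ne_zero) ((expand_ne_zero hq0).2 hw0)
    exact h1 hev.symm
  have hTdeg : T.natDegree = 0 := by
    rw [hT, hmonic.natDegree_mul' hT0, hnd] at hL
    omega
  obtain ⟨τ, rfl⟩ : ∃ τ, T = C τ := ⟨T.coeff 0, eq_C_of_natDegree_eq_zero hTdeg⟩
  have hP : (X ^ q - C (expand ℤ q F) : ℤ[X][X]).eval (X ^ n : ℤ[X]) =
      expand ℤ q (X ^ n - F) := by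
    rw [eval_sub, eval_pow, eval_X, eval_C, map_sub, map_pow, expand_X, ← pow_mul, ← pow_mul,
      mul_comm]
  rw [hT, eval_mul, hP, eval_C] at hev
  have hX : ¬ (X : ℤ[X]) ∣ expand ℤ q (X ^ n - F) := by
    rw [X_dvd_iff, coeff_expand hq0, if_pos (dvd_zero q), Nat.zero_div, coeff_sub, coeff_X_pow,
      if_neg (by omega), zero_sub, neg_eq_zero]
    exact hF0
  obtain ⟨τ', rfl⟩ : (X : ℤ[X]) ^ s ∣ τ := by
    refine Prime.pow_dvd_of_dvd_mul_left prime_X s hX ?_
    rw [hev]
    exact dvd_mul_right _ _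
  have hev2 : expand ℤ q (X ^ n - F) * τ' = expand ℤ q w := by
    have h1 : (X : ℤ[X]) ^ s * (expand ℤ q (X ^ n - F) * τ') = X ^ s * expand ℤ q w := by
      rw [← hev]
      ring
    exact mul_left_cancel₀ (pow_ne_zero _ X_ne_zero) h1
  have hPdeg : (X ^ n - F : ℤ[X]).natDegree = n := by
    rw [natDegree_sub_eq_left_of_natDegree_lt] <;> rw [natDegree_X_pow]
    exact hn
  have hP0 : (X ^ n - F : ℤ[X]) ≠ 0 := by
    intro h
    rw [h, natDegree_zero] at hPdeg
    omega
  have hτ0 : τ' ≠ 0 := by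
    rintro rfl
    rw [mul_zero] at hev2
    exact (expand_ne_zero hq0).2 hw0 hev2.symm
  have hτdeg : τ'.natDegree = 0 := by
    have h1 := congrArg natDegree hev2
    rw [natDegree_mul ((expand_ne_zero hq0).2 hP0) hτ0, natDegree_expand, natDegree_expand, hPdeg,
      hw] at h1
    omega
  obtain ⟨c, rfl⟩ : ∃ c, τ' = C c := ⟨τ'.coeff 0, eq_C_of_natDegree_eq_zero hτdeg⟩
  refine ⟨c, ?_⟩
  apply expand_injective hq0
  rw [← hev2, map_mul, expand_C]

/-- The sum of the squares of the coefficients bounds the number of terms. -/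
lemma card_support_le (k : ℤ[X]) : (k.support.card : ℤ) ≤ k.sum fun _ c => c ^ 2 := by
  rw [Polynomial.sum, Finset.card_eq_sum_ones]
  push_cast
  refine Finset.sum_le_sum fun e he => ?_
  have h1 : k.coeff e ≠ 0 := mem_support_iff.1 he
  have h2 : 0 < k.coeff e ^ 2 := by positivity
  omega

theorem gap (F : ℤ[X]) (hF0 : F.coeff 0 ≠ 0) (p : ℕ) (hp : p.Prime) (h1 : (p : ℤ) ∣ F.eval 1)
    (h2 : ¬ ((p : ℤ) ^ 2 ∣ F.eval 1)) :
    ∃ n₀ : ℕ, ∀ n, n₀ ≤ n → ∀ k : ℤ[X], (X ^ n - F) * (X ^ n - F).mirror = k * k.mirror →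
      k = X ^ n - F ∨ k = -(X ^ n - F) ∨ k = (X ^ n - F).mirror ∨ k = -(X ^ n - F).mirror := by
  classical
  set d := F.natDegree with hd
  obtain ⟨S, hS⟩ : ∃ S : ℕ, (F.sum fun _ c => c ^ 2) + 1 ≤ (S : ℤ) :=
    ⟨((F.sum fun _ c => c ^ 2) + 1).toNat, Int.self_le_toNat _⟩
  refine ⟨8 * (d + 1) * 16 ^ S + 1, fun n hn k hk => ?_⟩
  have h16 : 1 ≤ 16 ^ S := Nat.one_le_pow _ _ (by norm_num)
  have hdn : d < n := by nlinarith
  have hn0 : 0 < n := by omega
  set P : ℤ[X] := X ^ n - F with hP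
  have hPdeg : P.natDegree = n := by
    rw [hP, natDegree_sub_eq_left_of_natDegree_lt] <;> rw [natDegree_X_pow]
    exact hdn
  have hP0 : P ≠ 0 := by
    intro h
    rw [h, natDegree_zero] at hPdeg
    omega
  have hPc0 : P.coeff 0 ≠ 0 := by
    rw [hP, coeff_sub, coeff_X_pow, if_neg (by omega), zero_sub, neg_ne_zero]
    exact hF0
  have hPt : P.natTrailingDegree = 0 := natTrailingDegree_eq_zero.2 (Or.inr hPc0)
  -- degrees of `k`
  have hkdeg : k.natDegree = n := by
    have h3 := congrArg natDegree hk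
    rw [natDegree_mul_mirror, natDegree_mul_mirror, hPdeg] at h3
    omega
  have hkt : k.natTrailingDegree = 0 := by
    have h3 := congrArg natTrailingDegree hk
    rw [natTrailingDegree_mul_mirror, natTrailingDegree_mul_mirror, hPt] at h3
    omega
  have hk0 : k ≠ 0 := by
    intro h
    rw [h, natDegree_zero] at hkdeg
    omega
  have hmk0 : k.mirror ≠ 0 := by rwa [Ne, mirror_eq_zero]
  -- number of terms
  have hPsum : (P.sum fun _ c => c ^ 2) ≤ (S : ℤ) := by
    have h3 : (P.sum fun _ c => c ^ 2) = ∑ i ∈ range (n + 1), (P.coeff i) ^ 2 := by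
      rw [Polynomial.sum_over_range' P (f := fun _ c => c ^ 2) (by simp) (n + 1) (by omega)]
    have h4 : (F.sum fun _ c => c ^ 2) = ∑ i ∈ range n, (F.coeff i) ^ 2 := by
      rw [Polynomial.sum_over_range' F (f := fun _ c => c ^ 2) (by simp) n (by omega)]
    rw [h3, Finset.sum_range_succ]
    have h5 : P.coeff n = 1 := by
      rw [hP, coeff_sub, coeff_X_pow, if_pos rfl, coeff_eq_zero_of_natDegree_lt hdn, sub_zero]
    have h6 : ∑ i ∈ range n, (P.coeff i) ^ 2 = ∑ i ∈ range n, (F.coeff i) ^ 2 := by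
      refine Finset.sum_congr rfl fun i hi => ?_
      rw [mem_range] at hi
      rw [hP, coeff_sub, coeff_X_pow, if_neg (by omega), zero_sub, neg_sq]
    rw [h5, h6, ← h4]
    simpa using hS
  have hksum : (k.sum fun _ c => c ^ 2) = P.sum fun _ c => c ^ 2 := by
    have h3 := coeff_mul_mirror P
    have h4 := coeff_mul_mirror k
    rw [hPdeg, hPt] at h3
    rw [hkdeg, hkt, ← hk] at h4
    rw [← h3, ← h4]
  have hcard : k.support.card ≤ S := by
    have h3 := card_support_le k
    rw [hksum] at h3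
    exact_mod_cast h3.trans hPsum
  -- simultaneous approximation
  obtain ⟨q, hq1, hqle, hq⟩ := dirichlet k.support 16 n (by norm_num) hn0
  choose! b hb using hq
  have hq0 : 0 < q := hq1
  have hqS : q ≤ 16 ^ S := hqle.trans (Nat.pow_le_pow_right (by norm_num) hcard)
  have hqn : 8 * ((d + 1) * q) < n := by
    have h3 : (d + 1) * q ≤ (d + 1) * 16 ^ S := Nat.mul_le_mul_left _ hqS
    have h4 : 8 * (d + 1) * 16 ^ S = 8 * ((d + 1) * 16 ^ S) := by ring
    omega
  have hdq : d * q ≤ (d + 1) * q := Nat.mul_le_mul_right _ (Nat.le_succ d)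
  set s := n / 16 with hs
  have hs16 : 16 * s ≤ n := by omega
  have hle : ∀ e ∈ k.support, e ≤ n := fun e he => by
    rw [← hkdeg]
    exact le_natDegree_of_mem_supp e he
  have hbnn : ∀ e ∈ k.support, 0 ≤ b e := by
    intro e he
    by_contra hcon
    push Not at hcon
    have h3 := (abs_lt.1 (show |(16 : ℤ) * ((q : ℤ) * e - b e * n)| < n by
      rw [abs_mul]
      simpa using hb e he)).2
    have h4 : (0 : ℤ) ≤ (q : ℤ) * e := by positivity
    have h5 : (n : ℤ) ≤ -(b e * n) := by nlinarith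
    nlinarith
  have hble : ∀ e ∈ k.support, b e ≤ q := by
    intro e he
    by_contra hcon
    push Not at hcon
    have h3 := (abs_lt.1 (show |(16 : ℤ) * ((q : ℤ) * e - b e * n)| < n by
      rw [abs_mul]
      simpa using hb e he)).1
    have h4 : (q : ℤ) * e ≤ q * n := by
      have : (e : ℤ) ≤ n := by exact_mod_cast hle e he
      exact mul_le_mul_of_nonneg_left this (by positivity)
    have h5 : ((q : ℤ) + 1) * n ≤ b e * n := mul_le_mul_of_nonneg_right (by omega) (by positivity)
    nlinarith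
  have hrs : ∀ e ∈ k.support, |(q : ℤ) * e - b e * n| ≤ s := by
    intro e he
    have h3 := hb e he
    push_cast at h3
    omega
  -- natural number versions
  set B : ℕ → ℕ := fun e => (b e).toNat with hB
  have hBcast : ∀ e ∈ k.support, ((B e : ℕ) : ℤ) = b e := fun e he => Int.toNat_of_nonneg (hbnn e he)
  have hBq : ∀ e ∈ k.support, B e ≤ q := fun e he => by
    have h3 := hble e he
    rw [← hBcast e he] at h3
    exact_mod_cast h3
  have hB1 : ∀ e ∈ k.support, B e * n ≤ s + q * e := by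
    intro e he
    have h3 := (abs_le.1 (hrs e he)).1
    rw [← hBcast e he] at h3
    have : ((B e * n : ℕ) : ℤ) ≤ ((s + q * e : ℕ) : ℤ) := by
      push_cast
      linarith
    exact_mod_cast this
  have hB2 : ∀ e ∈ k.support, q * e ≤ s + B e * n := by
    intro e he
    have h3 := (abs_le.1 (hrs e he)).2
    rw [← hBcast e he] at h3
    have : ((q * e : ℕ) : ℤ) ≤ ((s + B e * n : ℕ) : ℤ) := by
      push_cast
      linarith
    exact_mod_cast this
  -- the two polynomials
  let K : ℤ[X][X] := ∑ e ∈ k.support, C (monomial (s + q * e - B e * n) (k.coeff e)) * X ^ B e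
  let K' : ℤ[X][X] := ∑ e ∈ k.support,
    C (monomial (s + B e * n - q * e) (k.coeff e)) * X ^ (q - B e)
  have hKdeg : K.natDegree ≤ q := by
    refine natDegree_sum_le_of_forall_le _ _ fun e he => ?_
    exact (natDegree_C_mul_X_pow_le _ _).trans (hBq e he)
  have hK'deg : K'.natDegree ≤ q := by
    refine natDegree_sum_le_of_forall_le _ _ fun e he => ?_
    exact (natDegree_C_mul_X_pow_le _ _).trans (Nat.sub_le _ _)
  have hKbd : Bd (2 * s) K := by
    refine Bd.sum _ _ fun e he => bd_C_mul_X_pow ?_ _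
    refine (natDegree_monomial_le _).trans ?_
    have := hB2 e he
    omega
  have hK'bd : Bd (2 * s) K' := by
    refine Bd.sum _ _ fun e he => bd_C_mul_X_pow ?_ _
    refine (natDegree_monomial_le _).trans ?_
    have := hB1 e he
    omega
  have hKev : K.eval (X ^ n : ℤ[X]) = X ^ s * expand ℤ q k := by
    have h3 : expand ℤ q k = ∑ e ∈ k.support, monomial (q * e) (k.coeff e) := by
      conv_lhs => rw [as_sum_support k]
      rw [map_sum]
      refine Finset.sum_congr rfl fun e _ => ?_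
      rw [expand_monomial, mul_comm]
    rw [h3, Finset.mul_sum, eval_finset_sum]
    refine Finset.sum_congr rfl fun e he => ?_
    rw [eval_mul, eval_C, eval_pow, eval_X, ← pow_mul, monomial_mul_X_pow, X_pow_mul_monomial]
    have h4 : s + q * e - B e * n + n * B e = q * e + s := by
      have := hB1 e he
      rw [mul_comm n (B e)]
      omega
    rw [h4]
  have hmir : k.mirror = ∑ e ∈ k.support, monomial (n - e) (k.coeff e) := by
    ext m
    rw [coeff_mirror, hkdeg, hkt, add_zero, finset_sum_coeff]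
    simp only [coeff_monomial]
    by_cases hm : m ≤ n
    · rw [revAt_le hm]
      by_cases hmem : n - m ∈ k.support
      · rw [Finset.sum_eq_single (n - m)]
        · rw [if_pos (by omega)]
        · intro e he hne
          have := hle e he
          rw [if_neg (by omega)]
        · intro h
          exact absurd hmem h
      · rw [notMem_support_iff.1 hmem]
        symm
        refine Finset.sum_eq_zero fun e he => ?_
        have h3 := hle e he
        rw [if_neg]
        intro h4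
        have h5 : e = n - m := by omega
        exact hmem (h5 ▸ he)
    · push Not at hm
      rw [revAt_eq_self_of_lt hm, coeff_eq_zero_of_natDegree_lt (by omega)]
      symm
      refine Finset.sum_eq_zero fun e he => ?_
      rw [if_neg (by omega)]
  have hK'ev : K'.eval (X ^ n : ℤ[X]) = X ^ s * expand ℤ q k.mirror := by
    have h3 : expand ℤ q k.mirror = ∑ e ∈ k.support, monomial (q * (n - e)) (k.coeff e) := by
      rw [hmir, map_sum]
      refine Finset.sum_congr rfl fun e _ => ?_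
      rw [expand_monomial, mul_comm]
    rw [h3, Finset.mul_sum, eval_finset_sum]
    refine Finset.sum_congr rfl fun e he => ?_
    rw [eval_mul, eval_C, eval_pow, eval_X, ← pow_mul, monomial_mul_X_pow, X_pow_mul_monomial]
    have h11 : s + B e * n - q * e + n * (q - B e) = q * (n - e) + s := by
      have h4 := hB2 e he
      have h5 := hBq e he
      have h6 := hle e he
      have h7 : n * (q - B e) = q * n - B e * n := by
        rw [Nat.mul_sub, mul_comm n q, mul_comm n (B e)]
      have h8 : q * (n - e) = q * n - q * e := Nat.mul_sub _ _ _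
      have h9 : B e * n ≤ q * n := Nat.mul_le_mul_right _ h5
      have h10 : q * e ≤ q * n := Nat.mul_le_mul_left _ h6
      omega
    rw [h11]
  -- the mirror of `P`
  set Fr : ℤ[X] := reflect d F with hFr
  have hFrdeg : Fr.natDegree ≤ d := natDegree_reflect_le.trans (by simp [hd])
  have hPmir : P.mirror = 1 - Fr * X ^ (n - d) := by
    have h3 : P.mirror = reflect n P := by
      unfold mirror
      rw [hPt, pow_zero, mul_one]
      unfold reverse
      rw [hPdeg]
    rw [h3, hP, reflect_sub, reflect_monomial, revAt_le le_rfl, Nat.sub_self, pow_zero]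
    congr 1
    have h4 := reflect_mul F (1 : ℤ[X]) (F := d) (G := n - d) le_rfl (by simp)
    rw [mul_one, reflect_one, Nat.add_sub_cancel' hdn.le] at h4
    exact h4
  let A₁ : ℤ[X][X] := C (X ^ (d * q)) * (K * K')
  let A₂ : ℤ[X][X] := C (X ^ (2 * s)) * ((X ^ q - C (expand ℤ q F)) *
    (C (X ^ (d * q)) - C (expand ℤ q Fr) * X ^ q))
  have hA₁bd : Bd (d * q + (2 * s + 2 * s)) A₁ :=
    (bd_C (natDegree_X_pow_le _)).mul (hKbd.mul hK'bd)
  have hA₂bd : Bd (2 * s + (d * q + d * q)) A₂ := by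
    refine (bd_C (natDegree_X_pow_le _)).mul (Bd.mul ?_ ?_)
    · refine ((bd_X_pow q).mono (Nat.zero_le _)).sub (bd_C ?_)
      rw [natDegree_expand]
    · refine (bd_C (natDegree_X_pow_le _)).sub (bd_C_mul_X_pow ?_ _)
      rw [natDegree_expand]
      exact Nat.mul_le_mul_right _ hFrdeg
  have hAA : A₁ = A₂ := by
    rw [← sub_eq_zero]
    refine eval_inj (n := n) (m := 2 * (d * q) + 4 * s) (by omega)
      ((hA₁bd.mono (by omega)).sub (hA₂bd.mono (by omega))) ?_
    have e1 : A₁.eval (X ^ n : ℤ[X]) = X ^ (d * q) * (X ^ s * X ^ s) *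
        (expand ℤ q k * expand ℤ q k.mirror) := by
      simp only [A₁, eval_mul, eval_C, hKev, hK'ev]
      ring
    have e2 : A₂.eval (X ^ n : ℤ[X]) = X ^ (d * q) * (X ^ s * X ^ s) *
        (expand ℤ q P * expand ℤ q P.mirror) := by
      simp only [A₂, eval_mul, eval_C, eval_sub, eval_pow, eval_X]
      rw [hPmir, hP, map_sub, map_sub, map_mul, map_pow, map_pow, expand_X, map_one, ← pow_mul,
        ← pow_mul, ← pow_mul]
      have e3 : n * q = d * q + q * (n - d) := by
        have i1 : q * d ≤ q * n := Nat.mul_le_mul_left _ hdn.le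
        have i2 : q * (n - d) = q * n - q * d := Nat.mul_sub _ _ _
        have i3 : d * q = q * d := mul_comm _ _
        have i4 : n * q = q * n := mul_comm _ _
        omega
      rw [mul_comm q n, e3, pow_add]
      ring
    rw [eval_sub, e1, e2, ← map_mul, ← map_mul, hk, sub_self]
  -- divisibility
  have hprime := prime_aux F p hp h1 h2 q hq1
  have hdvd : (X ^ q - C (expand ℤ q F) : ℤ[X][X]) ∣ C (X ^ (d * q)) * (K * K') := by
    change _ ∣ A₁
    rw [hAA]
    exact Dvd.intro_left (C (X ^ (2 * s)) * (C (X ^ (d * q)) - C (expand ℤ q Fr) * X ^ q)) (by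
      simp only [A₂]
      ring)
  have hnot : ¬ (X ^ q - C (expand ℤ q F) : ℤ[X][X]) ∣ C (X ^ (d * q)) := by
    intro h
    have h3 := natDegree_le_of_dvd h (by
      rw [Ne, C_eq_zero]
      exact pow_ne_zero _ X_ne_zero)
    rw [natDegree_C, natDegree_X_pow_sub_C] at h3
    omega
  have hsq : ∀ c : ℤ, P * P.mirror = (P * C c) * (P * C c).mirror → c = 1 ∨ c = -1 := by
    intro c h
    rw [mirror_mul_of_domain, mirror_C] at h
    have h3 : (P * P.mirror) * 1 = (P * P.mirror) * C (c * c) := by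
      rw [mul_one, C_mul]
      linear_combination h
    have hPm0 : P.mirror ≠ 0 := by rwa [Ne, mirror_eq_zero]
    have h4 := mul_left_cancel₀ (mul_ne_zero hP0 hPm0) h3
    rw [← C_1] at h4
    have h5 : c * c = 1 := (C_injective h4).symm
    exact mul_self_eq_one_iff.1 h5
  rcases hprime.dvd_or_dvd hdvd with h | h
  · exact absurd h hnot
  rcases hprime.dvd_or_dvd h with h | h
  · obtain ⟨c, hc⟩ := of_dvd hdn hq1 hF0 hkdeg hk0 hKdeg hKev h
    rw [← hP] at hc
    rw [hc] at hk
    rcases hsq c hk with rfl | rfl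
    · left
      rw [hc, C_1, mul_one]
    · right; left
      rw [hc, C_neg, C_1, mul_neg, mul_one]
  · have hmdeg : k.mirror.natDegree = n := by rw [mirror_natDegree, hkdeg]
    obtain ⟨c, hc⟩ := of_dvd hdn hq1 hF0 hmdeg hmk0 hK'deg hK'ev h
    rw [← hP] at hc
    have hk2 : k = (P * C c).mirror := by
      rw [← hc, mirror_mirror]
    rw [hk2, mirror_mirror, mul_comm (P * C c).mirror] at hk
    rw [mirror_mul_of_domain, mirror_C] at hk2
    rcases hsq c hk with rfl | rfl
    · right; right; left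
      rw [hk2, C_1, mul_one]
    · right; right; right
      rw [hk2, C_neg, C_1, mul_neg, mul_one]

end Pool.Agent.Helper10.Sep
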