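import Mathlib

/-!
# MP_418077_nt: the polynomial `F` of degree 23 and its values on the unit circle

`F = (X ^ 3 + X ^ 2 - 1) ^ 2 * S` has coefficients in `{-1, 0, 1}` and `|F| > 1` on the unit circle.
The last fact has a certificate: `10000 |F| ^ 2 = 10000 + |R| ^ 2 + E` with integer polynomials,
`E` having a dominating constant term.
-/

set_option autoImplicit false

namespace Pool.Agent.Helper10.Sep

open Polynomial Finset

/-- The coefficients of `F`. -/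
def cF : List ℤ :=
  [1, -1, -1, 1, -1, 1, -1, -1, 1, 1, 1, 1, 1, -1, -1, 1, 0, 1, -1, 1, -1, 0, 0, 1]

/-- The coefficients of `R`. -/
def cR : List ℤ :=
  [381, -90, 36, -41, -57, -25, 36, 63, -23, -54, -58, 25, 96, -39, 76, -33, 15, -38, 3, 30, -3,
    -33, -20, 26]

/-- The coefficients of `E`. -/
def cE : List ℤ :=
  [4835, 157, -48, 31, -148, 39, -17, 167, -48, -175, -72, -74, 71, 189, 28, 95, 73, 228, -178,
    150, -41, -163, -40, 94]

/-- The polynomial `F`. -/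
noncomputable def F : ℤ[X] := ∑ i ∈ range 24, C (cF.getD i 0) * X ^ i

lemma coeff_F (i : ℕ) : F.coeff i = if i < 24 then cF.getD i 0 else 0 := by
  unfold F
  rw [finset_sum_coeff]
  simp only [coeff_C_mul, coeff_X_pow, mul_ite, mul_one, mul_zero]
  rw [Finset.sum_ite_eq (range 24) i]
  simp only [mem_range]

lemma abs_coeff_F (i : ℕ) : |F.coeff i| ≤ 1 := by
  rw [coeff_F]
  split_ifs with h
  · have : ∀ j < 24, |cF.getD j 0| ≤ 1 := by decide
    exact this i h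
  · simp

lemma natDegree_F_lt : F.natDegree < 24 := by
  unfold F
  refine lt_of_le_of_lt (natDegree_sum_le_of_forall_le (n := 23) _ _ fun i hi => ?_) (by norm_num)
  rw [mem_range] at hi
  exact (natDegree_C_mul_X_pow_le _ _).trans (by omega)

lemma eval_F_one : F.eval 1 = 3 := by
  unfold F
  rw [eval_finset_sum]
  simp only [eval_mul, eval_C, eval_pow, eval_X, one_pow, mul_one]
  decide

lemma aeval_F {A : Type*} [CommRing A] (z : A) :
    aeval z F = ∑ i ∈ range 24, ((cF.getD i 0 : ℤ) : A) * z ^ i := by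
  unfold F
  rw [map_sum]
  refine Finset.sum_congr rfl fun i _ => ?_
  rw [map_mul, map_pow, aeval_X, aeval_C]
  simp

private lemma refl_sum (c : ℕ → ℤ) (z w : ℂ) (h : w * z = 1) :
    (∑ i ∈ range 24, (c i : ℂ) * w ^ i) * z ^ 23 = ∑ i ∈ range 24, (c i : ℂ) * z ^ (23 - i) := by
  rw [Finset.sum_mul]
  refine Finset.sum_congr rfl fun i hi => ?_
  rw [mem_range] at hi
  have h1 : z ^ 23 = z ^ i * z ^ (23 - i) := by
    rw [← pow_add]
    congr 1
    omega
  rw [h1, mul_assoc, ← mul_assoc (w ^ i), ← mul_pow, h, one_pow, one_mul]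

private lemma ident (z : ℂ) :
    10000 * ((∑ i ∈ range 24, ((cF.getD i 0 : ℤ) : ℂ) * z ^ i) *
      (∑ i ∈ range 24, ((cF.getD i 0 : ℤ) : ℂ) * z ^ (23 - i))) =
    10000 * z ^ 23 + (∑ i ∈ range 24, ((cR.getD i 0 : ℤ) : ℂ) * z ^ i) *
      (∑ i ∈ range 24, ((cR.getD i 0 : ℤ) : ℂ) * z ^ (23 - i)) + 4835 * z ^ 23 +
      ∑ k ∈ range 23, ((cE.getD (k + 1) 0 : ℤ) : ℂ) * (z ^ (24 + k) + z ^ (22 - k)) := by
  simp only [Finset.sum_range_succ, Finset.sum_range_zero, cF, cR, cE, List.getD_cons_zero,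
    List.getD_cons_succ, List.getD_nil]
  push_cast
  norm_num
  ring

theorem norm_F_ne_one (z : ℂ) (hz : ‖z‖ = 1) : ‖aeval z F‖ ≠ 1 := by
  intro hF
  have hz0 : z ≠ 0 := by
    rintro rfl
    rw [norm_zero] at hz
    exact zero_ne_one hz
  set w : ℂ := (starRingEnd ℂ) z with hw
  have hwz : w * z = 1 := by
    rw [hw, mul_comm, Complex.mul_conj, Complex.normSq_eq_norm_sq, hz]
    simp
  set a : ℂ := ∑ i ∈ range 24, ((cF.getD i 0 : ℤ) : ℂ) * z ^ i with ha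
  set r : ℂ := ∑ i ∈ range 24, ((cR.getD i 0 : ℤ) : ℂ) * z ^ i with hr
  have hca : (starRingEnd ℂ) a = ∑ i ∈ range 24, ((cF.getD i 0 : ℤ) : ℂ) * w ^ i := by
    rw [ha, map_sum]
    refine Finset.sum_congr rfl fun i _ => ?_
    rw [map_mul, map_pow, map_intCast]
  have hcr : (starRingEnd ℂ) r = ∑ i ∈ range 24, ((cR.getD i 0 : ℤ) : ℂ) * w ^ i := by
    rw [hr, map_sum]
    refine Finset.sum_congr rfl fun i _ => ?_
    rw [map_mul, map_pow, map_intCast]
  have h := ident z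
  rw [← refl_sum (fun i => cF.getD i 0) z w hwz, ← refl_sum (fun i => cR.getD i 0) z w hwz,
    ← ha, ← hr, ← hca, ← hcr, ← mul_assoc a, ← mul_assoc r, Complex.mul_conj, Complex.mul_conj,
    Complex.normSq_eq_norm_sq, Complex.normSq_eq_norm_sq] at h
  rw [aeval_F, ← ha] at hF
  rw [hF] at h
  have h2 : ((‖r‖ ^ 2 + 4835 : ℝ) : ℂ) * z ^ 23 =
      -∑ k ∈ range 23, ((cE.getD (k + 1) 0 : ℤ) : ℂ) * (z ^ (24 + k) + z ^ (22 - k)) := by
    push_cast at h ⊢
    linear_combination -h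
  have h3 := congrArg norm h2
  rw [norm_mul, norm_pow, hz, one_pow, mul_one, norm_neg, Complex.norm_real,
    Real.norm_of_nonneg (by positivity)] at h3
  have h4 : ‖∑ k ∈ range 23, ((cE.getD (k + 1) 0 : ℤ) : ℂ) * (z ^ (24 + k) + z ^ (22 - k))‖ ≤
      ∑ k ∈ range 23, (((|cE.getD (k + 1) 0| : ℤ) : ℝ) * 2) := by
    refine norm_sum_le_of_le _ fun k _ => ?_
    rw [norm_mul]
    refine mul_le_mul ?_ ?_ (norm_nonneg _) ?_
    · rw [Complex.norm_intCast, Int.cast_abs]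
    · refine (norm_add_le _ _).trans ?_
      rw [norm_pow, norm_pow, hz, one_pow, one_pow]
      norm_num
    · exact_mod_cast abs_nonneg _
  have h5 : ∑ k ∈ range 23, (((|cE.getD (k + 1) 0| : ℤ) : ℝ) * 2) = 4652 := by
    have h6 : ∑ k ∈ range 23, (|cE.getD (k + 1) 0| * 2) = 4652 := by decide
    exact_mod_cast h6
  rw [h5, ← h3] at h4
  have h7 := sq_nonneg ‖r‖
  linarith

/-! ### The factorization -/

/-- The square factor. -/
noncomputable def qq (x : ℝ) : ℝ := x ^ 3 + x ^ 2 - 1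

/-- The cofactor. -/
noncomputable def ss (x : ℝ) : ℝ :=
  x ^ 17 - 2 * x ^ 16 + 3 * x ^ 15 - 3 * x ^ 14 + 2 * x ^ 13 - 2 * x ^ 11 + 4 * x ^ 10 - 4 * x ^ 9 +
    2 * x ^ 8 + x ^ 7 - 3 * x ^ 6 + 4 * x ^ 5 - 2 * x ^ 4 + x ^ 3 + x ^ 2 - x + 1

lemma aeval_F_real (x : ℝ) : aeval x F = qq x ^ 2 * ss x := by
  rw [aeval_F]
  unfold qq ss
  simp only [Finset.sum_range_succ, Finset.sum_range_zero, cF, List.getD_cons_zero,
    List.getD_cons_succ, List.getD_nil]
  push_cast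
  ring

lemma ss_eq (x : ℝ) : ss x = qq x * (x ^ 14 - 3 * x ^ 13 + 6 * x ^ 12 - 8 * x ^ 11 + 7 * x ^ 10 -
    x ^ 9 - 9 * x ^ 8 + 20 * x ^ 7 - 25 * x ^ 6 + 18 * x ^ 5 + 3 * x ^ 4 - 31 * x ^ 3 + 53 * x ^ 2 -
    52 * x + 22) + (32 * x ^ 2 - 53 * x + 23) := by
  unfold qq ss
  ring

end Pool.Agent.Helper10.Sep
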