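import Mathlib

/-!
# MP_418077_nt: `X ^ n - F` and its mirror are relatively prime for large `n`

This holds when `F 0 ≠ 0` and `|F| ≠ 1` on the unit circle: a common root `α` satisfies
`α ^ n = F α` and `F α * F α⁻¹ = 1`; the second equation has finitely many solutions, none of
modulus `1`.
-/

set_option autoImplicit false

namespace Pool.Agent.Helper10.Sep

open Polynomial Filter Topology

private lemma eval_reflect (F : ℤ[X]) (α : ℂ) (hα : α ≠ 0) :
    aeval α (reflect F.natDegree F) = aeval α⁻¹ F * α ^ F.natDegree := by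
  have hinv : Invertible (α⁻¹ : ℂ) := invertibleOfNonzero (inv_ne_zero hα)
  have h := eval₂_reflect_mul_pow (algebraMap ℤ ℂ) (α⁻¹ : ℂ) F.natDegree F le_rfl
  rw [invOf_eq_inv, inv_inv] at h
  rw [aeval_def, aeval_def, ← h, mul_assoc, inv_pow, inv_mul_cancel₀ (pow_ne_zero _ hα), mul_one]

theorem relPrime (F : ℤ[X]) (hF0 : F.coeff 0 ≠ 0)
    (hcirc : ∀ z : ℂ, ‖z‖ = 1 → ‖aeval z F‖ ≠ 1) :
    ∃ n₁ : ℕ, ∀ n, n₁ ≤ n → IsRelPrime (X ^ n - F) (X ^ n - F).mirror := by
  classical
  set d := F.natDegree with hd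
  let G : ℤ[X] := F * reflect d F - X ^ d
  have hG : ∀ α : ℂ, α ≠ 0 → aeval α G = (aeval α F * aeval α⁻¹ F - 1) * α ^ d := by
    intro α hα
    simp only [G, map_sub, map_mul, map_pow, aeval_X]
    rw [hd, eval_reflect F α hα]
    ring
  have hG0 : G ≠ 0 := by
    intro h
    have h1 := hG 1 one_ne_zero
    rw [h, map_zero, inv_one, one_pow, mul_one] at h1
    have h2 : aeval (1 : ℂ) F * aeval (1 : ℂ) F = 1 := (sub_eq_zero.1 h1.symm)
    have h3 : ‖aeval (1 : ℂ) F‖ * ‖aeval (1 : ℂ) F‖ = 1 := by rw [← norm_mul, h2, norm_one]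
    have h4 : ‖aeval (1 : ℂ) F‖ = 1 := by
      have h5 := norm_nonneg (aeval (1 : ℂ) F)
      nlinarith
    exact hcirc 1 norm_one h4
  have hfin : (G.rootSet ℂ).Finite := rootSet_finite G ℂ
  have hev : ∀ α ∈ hfin.toFinset, ∀ᶠ n : ℕ in atTop, α = 0 ∨ α ^ n ≠ aeval α F := by
    intro α hα
    rw [Set.Finite.mem_toFinset, mem_rootSet] at hα
    obtain ⟨-, hα⟩ := hα
    by_cases h0 : α = 0
    · exact Eventually.of_forall fun n => Or.inl h0
    rw [hG α h0] at hα
    have h1 : aeval α F * aeval α⁻¹ F = 1 := by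
      rcases mul_eq_zero.1 hα with h | h
      · exact sub_eq_zero.1 h
      · exact absurd h (pow_ne_zero _ h0)
    have hF : aeval α F ≠ 0 := by
      intro h
      rw [h, zero_mul] at h1
      exact zero_ne_one h1
    rcases lt_trichotomy ‖α‖ 1 with h | h | h
    · have h2 : Tendsto (fun n : ℕ => ‖α‖ ^ n) atTop (𝓝 0) :=
        tendsto_pow_atTop_nhds_zero_of_lt_one (norm_nonneg _) h
      have h3 := h2.eventually (gt_mem_nhds (norm_pos_iff.2 hF))
      filter_upwards [h3] with n hn
      right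
      intro h4
      rw [← norm_pow, h4] at hn
      exact lt_irrefl _ hn
    · exfalso
      have h2 : α⁻¹ = (starRingEnd ℂ) α := by
        rw [Complex.inv_def, Complex.normSq_eq_norm_sq, h]
        simp
      have h3 : aeval α⁻¹ F = (starRingEnd ℂ) (aeval α F) := by
        rw [h2, aeval_def, aeval_def, hom_eval₂]
        congr 1
        exact RingHom.ext_int _ _
      rw [h3] at h1
      have h4 : ‖aeval α F‖ * ‖aeval α F‖ = 1 := by
        have h5 := congrArg norm h1
        rwa [norm_mul, RCLike.norm_conj, norm_one] at h5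
      have h5 : ‖aeval α F‖ = 1 := by
        have h5 := norm_nonneg (aeval α F)
        nlinarith
      exact hcirc α h h5
    · have h2 : Tendsto (fun n : ℕ => ‖α‖ ^ n) atTop atTop := tendsto_pow_atTop_atTop_of_one_lt h
      filter_upwards [h2.eventually (eventually_gt_atTop ‖aeval α F‖)] with n hn
      right
      intro h4
      rw [← norm_pow, h4] at hn
      exact lt_irrefl _ hn
  have hall : ∀ᶠ n : ℕ in atTop, ∀ α ∈ hfin.toFinset, α = 0 ∨ α ^ n ≠ aeval α F :=
    (Filter.eventually_all_finset _).2 hev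
  obtain ⟨n₁, hn₁⟩ := eventually_atTop.1 hall
  refine ⟨max n₁ (d + 1), fun n hn => ?_⟩
  have hnn : n₁ ≤ n := (le_max_left _ _).trans hn
  have hdn : d < n := (le_max_right _ _).trans hn
  set P : ℤ[X] := X ^ n - F with hP
  have hPdeg : P.natDegree = n := by
    rw [hP, natDegree_sub_eq_left_of_natDegree_lt] <;> rw [natDegree_X_pow]
    exact hdn
  have hPcn : P.coeff n = 1 := by
    rw [hP, coeff_sub, coeff_X_pow, if_pos rfl, coeff_eq_zero_of_natDegree_lt hdn, sub_zero]
  have hPc0 : P.coeff 0 ≠ 0 := by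
    rw [hP, coeff_sub, coeff_X_pow, if_neg (by omega), zero_sub, neg_ne_zero]
    exact hF0
  have hP0 : P ≠ 0 := by
    intro h
    rw [h, coeff_zero] at hPcn
    exact zero_ne_one hPcn
  have hPt : P.natTrailingDegree = 0 := natTrailingDegree_eq_zero.2 (Or.inr hPc0)
  have hmir : P.mirror = P.reverse := by
    unfold mirror
    rw [hPt, pow_zero, mul_one]
  intro D hD hD'
  by_cases hdeg : D.natDegree = 0
  · obtain ⟨c, rfl⟩ : ∃ c, D = C c := ⟨D.coeff 0, eq_C_of_natDegree_eq_zero hdeg⟩
    have h1 := (C_dvd_iff_dvd_coeff c P).1 hD n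
    rw [hPcn] at h1
    exact isUnit_C.2 (isUnit_of_dvd_one h1)
  · exfalso
    have hD0 : (D.map (algebraMap ℤ ℂ)).degree ≠ 0 := by
      rw [degree_map_eq_of_injective (RingHom.injective_int (algebraMap ℤ ℂ))]
      intro h
      exact hdeg (natDegree_eq_of_degree_eq_some h)
    obtain ⟨α, hα⟩ := IsAlgClosed.exists_root _ hD0
    have hα' : aeval α D = 0 := by
      rw [IsRoot, eval_map] at hα
      exact hα
    have h1 : aeval α P = 0 := by
      obtain ⟨T, hT⟩ := hD
      rw [hT, map_mul, hα', zero_mul]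
    have h2 : aeval α P.mirror = 0 := by
      obtain ⟨T, hT⟩ := hD'
      rw [hT, map_mul, hα', zero_mul]
    have hα0 : α ≠ 0 := by
      rintro rfl
      rw [← coeff_zero_eq_aeval_zero'] at h1
      have : P.coeff 0 = 0 := by
        have h3 : ((P.coeff 0 : ℤ) : ℂ) = 0 := by simpa using h1
        exact_mod_cast h3
      exact hPc0 this
    have h3 : aeval α⁻¹ P = 0 := by
      have hinv : Invertible (α⁻¹ : ℂ) := invertibleOfNonzero (inv_ne_zero hα0)
      have h := (eval₂_reverse_eq_zero_iff (algebraMap ℤ ℂ) (α⁻¹ : ℂ) P).1 (by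
        rw [invOf_eq_inv, inv_inv, ← hmir]
        exact h2)
      exact h
    have h4 : α ^ n = aeval α F := by
      rw [hP, map_sub, map_pow, aeval_X] at h1
      exact sub_eq_zero.1 h1
    have h5 : (α⁻¹) ^ n = aeval α⁻¹ F := by
      rw [hP, map_sub, map_pow, aeval_X] at h3
      exact sub_eq_zero.1 h3
    have h6 : aeval α G = 0 := by
      rw [hG α hα0, ← h4, ← h5, ← mul_pow, mul_inv_cancel₀ hα0, one_pow, sub_self, zero_mul]
    have h7 : α ∈ hfin.toFinset := by
      rw [Set.Finite.mem_toFinset, mem_rootSet]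
      exact ⟨hG0, h6⟩
    rcases hn₁ n hnn α h7 with h | h
    · exact hα0 h
    · exact h h4

end Pool.Agent.Helper10.Sep
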