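import Pool.Agent.Helper10.Sep.Poly

/-!
# MP_418077_nt: two close real roots of `X ^ n - F`

`F` has a double zero `x₀ = 0.7548...`, the real root of `X ^ 3 + X ^ 2 - 1`. With
`τ = (87 / 100) ^ n` the polynomial `X ^ n - F` is positive at `x₀` and negative at `x₀ ± τ`.
-/

set_option autoImplicit false

namespace Pool.Agent.Helper10.Sep

open Polynomial Filter Topology Set

private lemma exists_x0 : ∃ x : ℝ, 0.7548 ≤ x ∧ x ≤ 0.755 ∧ qq x = 0 := by
  have hc : ContinuousOn qq (Icc (0.7548 : ℝ) 0.755) := by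
    unfold qq
    fun_prop
  have h := intermediate_value_Icc (by norm_num : (0.7548 : ℝ) ≤ 0.755) hc
  have h0 : (0 : ℝ) ∈ Icc (qq 0.7548) (qq 0.755) := by
    unfold qq
    constructor <;> norm_num
  obtain ⟨x, hx, hx0⟩ := h h0
  exact ⟨x, hx.1, hx.2, hx0⟩

private lemma ss_gt {x : ℝ} (h1 : 0.7548 ≤ x) (h2 : x ≤ 0.755) (hq : qq x = 0) : 1 < ss x := by
  rw [ss_eq, hq, zero_mul, zero_add]
  nlinarith

private lemma qq_add {x t : ℝ} (hq : qq x = 0) :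
    qq (x + t) = t * (3 * x ^ 2 + 2 * x + t * (3 * x + 1) + t ^ 2) := by
  have h : qq (x + t) = qq x + t * (3 * x ^ 2 + 2 * x + t * (3 * x + 1) + t ^ 2) := by
    unfold qq
    ring
  rw [h, hq, zero_add]

private lemma qq_sq {x t : ℝ} (h1 : 0.7548 ≤ x) (h2 : x ≤ 0.755) (hq : qq x = 0)
    (ht1 : -0.001 ≤ t) (ht2 : t ≤ 0.001) : 9 * t ^ 2 ≤ qq (x + t) ^ 2 := by
  rw [qq_add hq, mul_pow]
  have h3 : 3 ≤ 3 * x ^ 2 + 2 * x + t * (3 * x + 1) + t ^ 2 := by nlinarith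
  have h4 : 9 ≤ (3 * x ^ 2 + 2 * x + t * (3 * x + 1) + t ^ 2) ^ 2 := by nlinarith
  have h5 : 0 ≤ t ^ 2 := sq_nonneg t
  nlinarith

/-- For all large `n` the polynomial `X ^ n - F` has two real roots at distance at most
`(7 / 8) ^ n`. -/
theorem two_roots : ∃ n₂ : ℕ, ∀ n, n₂ ≤ n → ∃ r₁ r₂ : ℝ, r₁ < r₂ ∧
    aeval r₁ (X ^ n - F) = 0 ∧ aeval r₂ (X ^ n - F) = 0 ∧ r₂ - r₁ ≤ (7 / 8) ^ n := by
  obtain ⟨x, hx1, hx2, hq⟩ := exists_x0
  have hs := ss_gt hx1 hx2 hq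
  have hcs : Continuous ss := by
    unfold ss
    fun_prop
  obtain ⟨δ, hδ, hball⟩ := Metric.eventually_nhds_iff.1 (hcs.continuousAt.eventually
    (lt_mem_nhds hs))
  have hev : ∀ᶠ n : ℕ in atTop, ((87 / 100 : ℝ)) ^ n < min δ 0.001 := by
    have h1 : Tendsto (fun n : ℕ => (87 / 100 : ℝ) ^ n) atTop (𝓝 0) :=
      tendsto_pow_atTop_nhds_zero_of_lt_one (by norm_num) (by norm_num)
    exact h1.eventually (gt_mem_nhds (lt_min hδ (by norm_num)))
  have hev2 : ∀ᶠ n : ℕ in atTop, (2 : ℝ) ≤ (175 / 174 : ℝ) ^ n := by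
    have h1 : Tendsto (fun n : ℕ => (175 / 174 : ℝ) ^ n) atTop atTop :=
      tendsto_pow_atTop_atTop_of_one_lt (by norm_num)
    exact h1.eventually (eventually_ge_atTop 2)
  obtain ⟨n₂, hn₂⟩ := eventually_atTop.1 (hev.and hev2)
  refine ⟨n₂, fun n hn => ?_⟩
  obtain ⟨hτ, h2⟩ := hn₂ n hn
  set τ : ℝ := (87 / 100 : ℝ) ^ n with hτdef
  have hτ0 : 0 < τ := by positivity
  have hτδ : τ < δ := hτ.trans_le (min_le_left _ _)
  have hτ1 : τ < 0.001 := hτ.trans_le (min_le_right _ _)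
  have hτ2 : τ ^ 2 = (0.7569 : ℝ) ^ n := by
    rw [hτdef, ← pow_mul, mul_comm, pow_mul]
    norm_num
  have hle : 2 * τ ≤ (7 / 8 : ℝ) ^ n := by
    have h3 : (7 / 8 : ℝ) ^ n = (175 / 174 : ℝ) ^ n * τ := by
      rw [hτdef, ← mul_pow]
      norm_num
    rw [h3]
    exact mul_le_mul_of_nonneg_right h2 hτ0.le
  have hf : ∀ y : ℝ, aeval y (X ^ n - F) = y ^ n - qq y ^ 2 * ss y := by
    intro y
    rw [map_sub, map_pow, aeval_X, aeval_F_real]
  have hneg : ∀ t : ℝ, |t| = τ → (x + t) ^ n - qq (x + t) ^ 2 * ss (x + t) < 0 := by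
    intro t ht
    have ht1 : -0.001 ≤ t := by
      have := neg_abs_le t
      rw [ht] at this
      linarith
    have ht2 : t ≤ 0.001 := by
      have := le_abs_self t
      rw [ht] at this
      linarith
    have e1 := qq_sq hx1 hx2 hq ht1 ht2
    have e2 : 1 < ss (x + t) := by
      refine hball ?_
      rw [Real.dist_eq, add_sub_cancel_left, ht]
      exact hτδ
    have e3 : (x + t) ^ n ≤ (0.7569 : ℝ) ^ n := by
      refine pow_le_pow_left₀ (by linarith) (by linarith) n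
    have e4 : t ^ 2 = (0.7569 : ℝ) ^ n := by rw [← hτ2, ← ht, sq_abs]
    rw [e4] at e1
    have e5 : 0 < (0.7569 : ℝ) ^ n := by positivity
    have e6 : qq (x + t) ^ 2 * 1 ≤ qq (x + t) ^ 2 * ss (x + t) :=
      mul_le_mul_of_nonneg_left e2.le (sq_nonneg _)
    linarith
  have hpos : 0 < x ^ n - qq x ^ 2 * ss x := by
    rw [hq]
    have : 0 < x := by linarith
    have : 0 < x ^ n := pow_pos this n
    linarith
  have hcont : Continuous (fun y : ℝ => y ^ n - qq y ^ 2 * ss y) := by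
    unfold qq ss
    fun_prop
  have h3 := hneg (-τ) (by rw [abs_neg, abs_of_pos hτ0])
  have h4 := hneg τ (abs_of_pos hτ0)
  obtain ⟨r₁, hr₁, hr₁0⟩ := intermediate_value_Icc (by linarith : x + -τ ≤ x)
    hcont.continuousOn ⟨h3.le, hpos.le⟩
  obtain ⟨r₂, hr₂, hr₂0⟩ := intermediate_value_Icc' (by linarith : x ≤ x + τ)
    hcont.continuousOn ⟨h4.le, hpos.le⟩
  have hr₁x : r₁ ≠ x := by
    rintro rfl
    exact hpos.ne' hr₁0
  refine ⟨r₁, r₂, ?_, ?_, ?_, ?_⟩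
  · exact (lt_of_le_of_ne hr₁.2 hr₁x).trans_le hr₂.1
  · rw [hf]
    exact hr₁0
  · rw [hf]
    exact hr₂0
  · have := hr₁.1
    have := hr₂.2
    linarith

end Pool.Agent.Helper10.Sep
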